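import Mathlib
import Pool.Agent.Q46.PX.Joined

/-! Unramified period-index for abelian varieties of arbitrary dimension: a definite proportion of the classes of
prime power period. -/

set_option autoImplicit false
set_option linter.all false

open scoped TensorProduct

namespace Pool.Agent.Results.MP_43d240_ag.DefiniteProportionPrimePowers

open Pool.Agent.Helper18.Br Pool.Agent.H552R3.SymBr Pool.Agent.H552R3.SymPred Pool.Agent.H552R3.Tsen

universe u

/-- Let `K` be an extension of an algebraically closed field `k`, let `p` be a prime number and `m ≥ 1`, let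
`ζ ∈ K` be a primitive `p ^ m`-th root of unity and let `z_1, ..., z_{2g}` (`g ≥ 1`, indexed by two copies of
`{1, ..., g}`) be nonzero elements of `K`; `(a, b)` denotes the symbol of degree `p ^ m`, a class in the Brauer group
of `K`. Suppose that there is one relation `∑ w(u, v) (z_u, z_v) = 0` with integers `w(u, v)` such that
`w(u, v) - w(v, u)` is not divisible by `p` for at least one pair `(u, v)`.

Let `S` be the group of all classes generated by the symbols with entries in the group generated by `kˣ` and the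
`z_u`. Then `S` is finite, and the index divides `(p ^ m) ^ (g - 1)` for at least `c_p * #S` of its classes, with
`c_p = p ^ 2 (p ^ 2 - p - 1) ^ 2 / ((p ^ 2 - 1) ^ 2 (2 p ^ 2 - 2 p - 1))`. -/
theorem result {k K : Type u} [Field k] [IsAlgClosed k] [Field K] [Algebra k K] (p : ℕ) (hp : p.Prime)
    (m : ℕ) (hm : 0 < m) (ζ : K) (hζ : IsPrimitiveRoot ζ (p ^ m)) (g : ℕ) (hg : 0 < g) (z : Fin g ⊕ Fin g → Kˣ)
    (θ : Fin g ⊕ Fin g → Fin g ⊕ Fin g → BrauerGroup.{u, u} K) (hθ : ∀ u v, IsSym (p ^ m) ζ (z u) (z v) (θ u v))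
    (w : Fin g ⊕ Fin g → Fin g ⊕ Fin g → ℤ)
    (hw : ∏ u, ∏ v, θ u v ^ w u v = 1)
    (hne : ∃ u v, ¬ (p : ℤ) ∣ w u v - w v u)
    (G : Subgroup Kˣ)
    (hG : G = Subgroup.closure (Set.range (Units.map (algebraMap k K).toMonoidHom) ∪ Set.range z))
    (S : Subgroup (BrauerGroup.{u, u} K))
    (hS : S = Subgroup.closure {γ | ∃ a ∈ G, ∃ b ∈ G, IsSym (p ^ m) ζ a b γ}) :
    Finite S ∧
    (p : ℚ) ^ 2 * ((p : ℚ) ^ 2 - p - 1) ^ 2 * Nat.card S ≤
      ((p : ℚ) ^ 2 - 1) ^ 2 * (2 * (p : ℚ) ^ 2 - 2 * p - 1) *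
        Nat.card {α : BrauerGroup.{u, u} K // α ∈ S ∧ IndDvd α ((p ^ m) ^ (g - 1))} := by
  obtain ⟨h1, h2, -⟩ := Pool.Agent.Q46.PX.Joined.joined p hp m hm ζ hζ g hg z θ hθ 1 (fun _ => w) (fun _ => hw)
    (fun _ => Matrix.of fun u v => ((w u v - w v u : ℤ) : ZMod p)) (fun _ _ _ => rfl) G hG S hS
    {α | α ∈ S ∧ IndDvd α ((p ^ m) ^ (g - 1))}
    {α | α ∈ S ∧ α ∉ {α | α ∈ S ∧ IndDvd α ((p ^ m) ^ (g - 1))}} (fun _ => Iff.rfl) (fun _ => Iff.rfl)
  refine ⟨h1, h2 0 fun h0 => ?_⟩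
  obtain ⟨u, v, huv⟩ := hne
  exact huv ((ZMod.intCast_zmod_eq_zero_iff_dvd _ _).1 (congrFun (congrFun h0 u) v))

end Pool.Agent.Results.MP_43d240_ag.DefiniteProportionPrimePowers
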