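import Mathlib
import Pool.Agent.Q46.PIdx.Joined

/-! Unramified period-index for abelian varieties of arbitrary dimension, prime period: more than half of the
classes. -/

set_option autoImplicit false
set_option linter.all false

open scoped TensorProduct

namespace Pool.Agent.Results.MP_43d240_ag.MoreThanHalfPrimePeriod

open Pool.Agent.Helper18.Br Pool.Agent.H552R3.SymBr Pool.Agent.H552R3.SymPred Pool.Agent.H552R3.Tsen

universe u

/-- Let `K` be an extension of an algebraically closed field `k`, let `p` be a prime number, let `ζ ∈ K` be a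
primitive `p`-th root of unity and let `z_1, ..., z_{2g}` (`g ≥ 1`, indexed by two copies of `{1, ..., g}`) be
nonzero elements of `K`; `(a, b)` denotes the symbol of degree `p`, a class in the Brauer group of `K`. Suppose that
there is one relation `∑ w(u, v) (z_u, z_v) = 0` with integers `w(u, v)` such that `w(u, v) - w(v, u)` is not divisible
by `p` for at least one pair `(u, v)`.

Let `S` be the group of all classes generated by the symbols with entries in the group generated by `kˣ` and the
`z_u`. A class in `S` is called good if it is the sum of `g - 1` symbols and its index divides `p ^ (g - 1)`. Then `S`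
is finite, and more than half of the classes in `S` are good. -/
theorem result {k K : Type u} [Field k] [IsAlgClosed k] [Field K] [Algebra k K] (p : ℕ) (hp : p.Prime)
    (ζ : K) (hζ : IsPrimitiveRoot ζ p) (g : ℕ) (hg : 0 < g) (z : Fin g ⊕ Fin g → Kˣ)
    (θ : Fin g ⊕ Fin g → Fin g ⊕ Fin g → BrauerGroup.{u, u} K) (hθ : ∀ u v, IsSym p ζ (z u) (z v) (θ u v))
    (w : Fin g ⊕ Fin g → Fin g ⊕ Fin g → ℤ)
    (hw : ∏ u, ∏ v, θ u v ^ w u v = 1)
    (hne : ∃ u v, ¬ (p : ℤ) ∣ w u v - w v u)
    (G : Subgroup Kˣ)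
    (hG : G = Subgroup.closure (Set.range (Units.map (algebraMap k K).toMonoidHom) ∪ Set.range z))
    (S : Subgroup (BrauerGroup.{u, u} K))
    (hS : S = Subgroup.closure {γ | ∃ a ∈ G, ∃ b ∈ G, IsSym p ζ a b γ})
    (good : Set (BrauerGroup.{u, u} K))
    (hgood : ∀ α, α ∈ good ↔ α ∈ S ∧ IndDvd α (p ^ (g - 1)) ∧
      ∃ (s t : Fin (g - 1) → Kˣ) (σ : Fin (g - 1) → BrauerGroup.{u, u} K),
        (∀ i, IsSym p ζ (s i) (t i) (σ i)) ∧ α = ∏ i, σ i) :
    Finite S ∧ Nat.card S < 2 * Nat.card good := by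
  obtain ⟨h1, h2, -⟩ := Pool.Agent.Q46.PIdx.Joined.joined p hp ζ hζ g hg z θ hθ 1 one_pos (fun _ => w) (fun _ => hw)
    (fun _ => Matrix.of fun u v => ((w u v - w v u : ℤ) : ZMod p)) (fun _ _ _ => rfl) G hG S hS good
    {α | α ∈ S ∧ α ∉ good} hgood (fun _ => Iff.rfl)
  refine ⟨h1, h2 0 fun h0 => ?_⟩
  obtain ⟨u, v, huv⟩ := hne
  refine huv ((ZMod.intCast_zmod_eq_zero_iff_dvd _ _).1 ?_)
  haveI : Fact p.Prime := ⟨hp⟩
  exact congrFun (congrFun h0 u) v

end Pool.Agent.Results.MP_43d240_ag.MoreThanHalfPrimePeriod
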