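import Mathlib
import Pool.Agent.Q46.PIdx.Joined

/-! Unramified period-index for abelian varieties of arbitrary dimension and Picard number at least two, prime period:
a bound for the number of the remaining classes. -/

set_option autoImplicit false
set_option linter.all false

open scoped TensorProduct
open Matrix

namespace Pool.Agent.Results.MP_43d240_ag.RankTwoPrimePeriod

open Pool.Agent.Helper18.Br Pool.Agent.H552R3.SymBr Pool.Agent.H552R3.SymPred Pool.Agent.H552R3.Tsen

universe u

/-- Let `K` be an extension of an algebraically closed field `k`, let `p` be a prime number, let `ζ ∈ K` be a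
primitive `p`-th root of unity and let `z_1, ..., z_{2g}` (`g ≥ 1`, indexed by two copies of `{1, ..., g}`) be
nonzero elements of `K`; `(a, b)` denotes the symbol of degree `p`, a class in the Brauer group of `K`. Let
`w_1, ..., w_r` (`r ≥ 2`) be integral `2g × 2g` matrices with `∑ w_i(u, v) (z_u, z_v) = 0`, and let `E_i` be the
reduction of the alternating matrix `w_i - w_iᵀ` modulo `p`.

Let `S` be the group of all classes generated by the symbols with entries in the group generated by `kˣ` and the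
`z_u`. A class in `S` is called good if it is the sum of `g - 1` symbols and its index divides `p ^ (g - 1)`, and bad
otherwise. Then `S` is finite, and

(1) if `N` is the number of `x ∈ F_p ^ (2g)` for which the vectors `E_1 x, ..., E_r x` are linearly independent, then
the number of bad classes is at most `D / (N + D) * #S` with `D = (p ^ 2 - 1) (p ^ (2g - r - 1) - 1)`;

(2) if two of the `E_i` are linearly independent over `F_p`, then the number of bad classes is at most
`#S / (p - 1)`;

(3) if all nontrivial linear combinations of the `E_i` are nondegenerate, then the number of bad classes is at most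
`#S / (p ^ (r - 1) + 1)`. -/
theorem result {k K : Type u} [Field k] [IsAlgClosed k] [Field K] [Algebra k K] (p : ℕ) (hp : p.Prime)
    (ζ : K) (hζ : IsPrimitiveRoot ζ p) (g : ℕ) (hg : 0 < g) (z : Fin g ⊕ Fin g → Kˣ)
    (θ : Fin g ⊕ Fin g → Fin g ⊕ Fin g → BrauerGroup.{u, u} K) (hθ : ∀ u v, IsSym p ζ (z u) (z v) (θ u v))
    (r : ℕ) (hr : 2 ≤ r) (w : Fin r → Fin g ⊕ Fin g → Fin g ⊕ Fin g → ℤ)
    (hw : ∀ i, ∏ u, ∏ v, θ u v ^ w i u v = 1)
    (E : Fin r → Matrix (Fin g ⊕ Fin g) (Fin g ⊕ Fin g) (ZMod p))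
    (hE : ∀ i u v, E i u v = ((w i u v - w i v u : ℤ) : ZMod p))
    (G : Subgroup Kˣ)
    (hG : G = Subgroup.closure (Set.range (Units.map (algebraMap k K).toMonoidHom) ∪ Set.range z))
    (S : Subgroup (BrauerGroup.{u, u} K))
    (hS : S = Subgroup.closure {γ | ∃ a ∈ G, ∃ b ∈ G, IsSym p ζ a b γ})
    (good bad : Set (BrauerGroup.{u, u} K))
    (hgood : ∀ α, α ∈ good ↔ α ∈ S ∧ IndDvd α (p ^ (g - 1)) ∧
      ∃ (s t : Fin (g - 1) → Kˣ) (σ : Fin (g - 1) → BrauerGroup.{u, u} K),
        (∀ i, IsSym p ζ (s i) (t i) (σ i)) ∧ α = ∏ i, σ i)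
    (hbad : ∀ α, α ∈ bad ↔ α ∈ S ∧ α ∉ good) :
    Finite S ∧
    Nat.card bad * (Nat.card {x : Fin g ⊕ Fin g → ZMod p // LinearIndependent (ZMod p) fun i => E i *ᵥ x} +
        (p ^ 2 - 1) * (p ^ (2 * g - r - 1) - 1)) ≤
      (p ^ 2 - 1) * (p ^ (2 * g - r - 1) - 1) * Nat.card S ∧
    (∀ i j, LinearIndependent (ZMod p) ![E i, E j] → (p - 1) * Nat.card bad ≤ Nat.card S) ∧
    ((∀ c : Fin r → ZMod p, c ≠ 0 → (∑ i, c i • E i).det ≠ 0) →
      (p ^ (r - 1) + 1) * Nat.card bad ≤ Nat.card S) := by
  obtain ⟨h1, -, h3, h4, h5⟩ := Pool.Agent.Q46.PIdx.Joined.joined p hp ζ hζ g hg z θ hθ r (by omega) w hw E hE G hG S hS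
    good bad hgood hbad
  exact ⟨h1, h5, h3, h4⟩

end Pool.Agent.Results.MP_43d240_ag.RankTwoPrimePeriod
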