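import Mathlib
import Pool.Agent.Q46.PX.Joined

/-! Unramified period-index for abelian varieties of arbitrary dimension and Picard number at least two: all but a
proportion `2 / p` of the classes of period a power of `p`. -/

set_option autoImplicit false
set_option linter.all false

open scoped TensorProduct

namespace Pool.Agent.Results.MP_43d240_ag.RankTwoPrimePowers

open Pool.Agent.Helper18.Br Pool.Agent.H552R3.SymBr Pool.Agent.H552R3.SymPred Pool.Agent.H552R3.Tsen

universe u

/-- Let `K` be an extension of an algebraically closed field `k`, let `p` be a prime number and `m ≥ 1`, let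
`ζ ∈ K` be a primitive `p ^ m`-th root of unity and let `z_1, ..., z_{2g}` (`g ≥ 1`, indexed by two copies of
`{1, ..., g}`) be nonzero elements of `K`; `(a, b)` denotes the symbol of degree `p ^ m`, a class in the Brauer group
of `K`. Suppose that there are two relations `∑ w_i(u, v) (z_u, z_v) = 0`, `i = 1, 2`, with integral `2g × 2g` matrices
`w_1`, `w_2` such that the reductions `E_1`, `E_2` of the alternating matrices `w_i - w_iᵀ` modulo `p` are linearly
independent over `F_p`.

Let `S` be the group of all classes generated by the symbols with entries in the group generated by `kˣ` and the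
`z_u`. Then `S` is finite, and the number of its classes whose index does not divide `(p ^ m) ^ (g - 1)` is at most
`(2 / p) * #S`. -/
theorem result {k K : Type u} [Field k] [IsAlgClosed k] [Field K] [Algebra k K] (p : ℕ) (hp : p.Prime)
    (m : ℕ) (hm : 0 < m) (ζ : K) (hζ : IsPrimitiveRoot ζ (p ^ m)) (g : ℕ) (hg : 0 < g) (z : Fin g ⊕ Fin g → Kˣ)
    (θ : Fin g ⊕ Fin g → Fin g ⊕ Fin g → BrauerGroup.{u, u} K) (hθ : ∀ u v, IsSym (p ^ m) ζ (z u) (z v) (θ u v))
    (w : Fin 2 → Fin g ⊕ Fin g → Fin g ⊕ Fin g → ℤ)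
    (hw : ∀ i, ∏ u, ∏ v, θ u v ^ w i u v = 1)
    (E : Fin 2 → Matrix (Fin g ⊕ Fin g) (Fin g ⊕ Fin g) (ZMod p))
    (hE : ∀ i u v, E i u v = ((w i u v - w i v u : ℤ) : ZMod p))
    (hind : LinearIndependent (ZMod p) E)
    (G : Subgroup Kˣ)
    (hG : G = Subgroup.closure (Set.range (Units.map (algebraMap k K).toMonoidHom) ∪ Set.range z))
    (S : Subgroup (BrauerGroup.{u, u} K))
    (hS : S = Subgroup.closure {γ | ∃ a ∈ G, ∃ b ∈ G, IsSym (p ^ m) ζ a b γ}) :
    Finite S ∧
    p * Nat.card {α : BrauerGroup.{u, u} K // α ∈ S ∧ ¬ IndDvd α ((p ^ m) ^ (g - 1))} ≤ 2 * Nat.card S := by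
  obtain ⟨h1, -, h2⟩ := Pool.Agent.Q46.PX.Joined.joined p hp m hm ζ hζ g hg z θ hθ 2 w hw E hE G hG S hS
    {α | α ∈ S ∧ IndDvd α ((p ^ m) ^ (g - 1))}
    {α | α ∈ S ∧ ¬ IndDvd α ((p ^ m) ^ (g - 1))} (fun _ => Iff.rfl) (fun α => by
      simp only [Set.mem_setOf_eq, not_and]
      exact ⟨fun h => ⟨h.1, fun _ => h.2⟩, fun h => ⟨h.1, h.2 h.1⟩⟩)
  refine ⟨h1, h2 0 1 ?_⟩
  have e : ![E 0, E 1] = E := by
    funext l
    fin_cases l <;> rfl
  rw [e]
  exact hind

end Pool.Agent.Results.MP_43d240_ag.RankTwoPrimePowers
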